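import Mathlib

namespace Pool.Agent.Results.MP_482303_co.AutBlowup

open Finset

/-- `IsOneDesign B k r`: the finite set `B` of blocks on the finite point set `α` is a 1-design
with block size `k ≥ 2` in which every point lies in exactly `r ≥ 1` blocks. -/
structure IsOneDesign {α : Type*} [Fintype α] [DecidableEq α]
    (B : Finset (Finset α)) (k r : ℕ) : Prop where
  two_le_k : 2 ≤ k
  one_le_r : 1 ≤ r
  card_block : ∀ b ∈ B, b.card = k
  regular : ∀ x : α, (B.filter (fun b => x ∈ b)).card = r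

theorem image_eq_iff {α : Type*} [Fintype α] [DecidableEq α]
    (B : Finset (Finset α)) (g : Equiv.Perm α) :
    B.image (fun b => b.image g) = B ↔ ∀ b : Finset α, b.image g ∈ B ↔ b ∈ B := by
  constructor
  · intro h b
    constructor
    · intro hb
      rw [← h, mem_image] at hb
      obtain ⟨b', hb', he⟩ := hb
      have : b' = b := Finset.image_injective g.injective he
      exact this ▸ hb'
    · intro hb
      rw [← h]
      exact mem_image_of_mem _ hb
  · intro h
    ext b
    rw [mem_image]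
    constructor
    · rintro ⟨b', hb', rfl⟩
      exact (h b').2 hb'
    · intro hb
      refine ⟨b.image g.symm, ?_, ?_⟩
      · rw [← h, Finset.image_image]
        simpa using hb
      · simp [Finset.image_image]

/-- The automorphism group of the design with block set `B`: all permutations of the points
that map the block set onto itself. -/
def autGroup {α : Type*} [Fintype α] [DecidableEq α] (B : Finset (Finset α)) :
    Subgroup (Equiv.Perm α) where
  carrier := {g | B.image (fun b => b.image g) = B}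
  mul_mem' := by
    intro g h hg hh
    simp only [Set.mem_ofPred_eq, image_eq_iff] at hg hh ⊢
    intro b
    have : b.image (g * h) = (b.image h).image g := by
      rw [Finset.image_image]; rfl
    rw [this, hg, hh]
  one_mem' := by
    simp [image_eq_iff]
  inv_mem' := by
    intro g hg
    simp only [Set.mem_ofPred_eq, image_eq_iff] at hg ⊢
    intro b
    rw [← hg (b.image (⇑(g⁻¹))), Finset.image_image]
    simp

/-- The block set of `D(D~, e)` on the point set `α × Δ`, `|Δ| = e`: all sets `S` of points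
such that for some `i ∈ Δ`, `S ∩ (α × {i}) = b × {i}` for a block `b ∈ B`, and
`|S ∩ (α × {j})| = 1` for all `j ≠ i`. -/
def blowup {α : Type*} [Fintype α] [DecidableEq α] (B : Finset (Finset α))
    (Δ : Type*) [Fintype Δ] [DecidableEq Δ] : Finset (Finset (α × Δ)) :=
  univ.filter (fun S => ∃ i : Δ, (∃ b ∈ B, S ∩ (univ ×ˢ {i}) = b ×ˢ {i}) ∧
    ∀ j : Δ, j ≠ i → (S ∩ (univ ×ˢ {j})).card = 1)

/-- The wreath product `G wr Sym(Δ)` in its imprimitive action on `α × Δ`: all permutations
`(p, j) ↦ (f j p, σ j)` with `f j ∈ G` for all `j ∈ Δ` and `σ ∈ Sym(Δ)`. -/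
def wreath {α : Type*} (G : Subgroup (Equiv.Perm α)) (Δ : Type*) :
    Subgroup (Equiv.Perm (α × Δ)) where
  carrier := {g | ∃ (f : Δ → Equiv.Perm α) (σ : Equiv.Perm Δ), (∀ j, f j ∈ G) ∧
    ∀ (p : α) (j : Δ), g (p, j) = (f j p, σ j)}
  mul_mem' := by
    rintro g h ⟨f, σ, hf, hg⟩ ⟨f', σ', hf', hh⟩
    refine ⟨fun j => f (σ' j) * f' j, σ * σ', fun j => G.mul_mem (hf _) (hf' _), ?_⟩
    intro p j
    simp [hh, hg]
  one_mem' := ⟨fun _ => 1, 1, fun _ => G.one_mem, fun _ _ => rfl⟩
  inv_mem' := by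
    rintro g ⟨f, σ, hf, hg⟩
    refine ⟨fun j => (f (σ.symm j))⁻¹, σ⁻¹, fun j => G.inv_mem (hf _), ?_⟩
    intro p j
    rw [Equiv.Perm.inv_eq_iff_eq, hg]
    simp

section proofs

set_option linter.unusedSectionVars false

variable {α : Type*} [Fintype α] [DecidableEq α] {Δ : Type*} [Fintype Δ] [DecidableEq Δ]

/-- the fibre of `S` over `j` -/
def fib (S : Finset (α × Δ)) (j : Δ) : Finset α := univ.filter (fun p => (p, j) ∈ S)

omit [DecidableEq α] [Fintype Δ] in
theorem mem_fib {S : Finset (α × Δ)} {j : Δ} {p : α} [DecidableEq α] :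
    p ∈ fib S j ↔ (p, j) ∈ S := by simp [fib]

theorem inter_eq (S : Finset (α × Δ)) (j : Δ) : S ∩ (univ ×ˢ {j}) = (fib S j) ×ˢ {j} := by
  ext ⟨p, q⟩
  simp only [mem_inter, mem_product, mem_univ, true_and, mem_singleton, mem_fib]
  constructor
  · rintro ⟨h, rfl⟩; exact ⟨h, rfl⟩
  · rintro ⟨h, rfl⟩; exact ⟨h, rfl⟩

theorem mem_blowup {B : Finset (Finset α)} {S : Finset (α × Δ)} :
    S ∈ blowup B Δ ↔ ∃ i : Δ, fib S i ∈ B ∧ ∀ j : Δ, j ≠ i → (fib S j).card = 1 := by
  unfold blowup
  simp only [mem_filter, mem_univ, true_and, inter_eq, card_product, card_singleton, mul_one]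
  constructor
  · rintro ⟨i, ⟨b, hb, h1⟩, h2⟩
    refine ⟨i, ?_, h2⟩
    have : fib S i = b := by
      ext p
      have := Finset.ext_iff.1 h1 (p, i)
      simpa using this
    rw [this]; exact hb
  · rintro ⟨i, h1, h2⟩
    exact ⟨i, ⟨_, h1, rfl⟩, h2⟩

theorem mem_autGroup {B : Finset (Finset α)} {g : Equiv.Perm α} :
    g ∈ autGroup B ↔ ∀ b : Finset α, b.image g ∈ B ↔ b ∈ B :=
  image_eq_iff B g

/-- replace the point `x` by the point `y` -/
def mv (S : Finset (α × Δ)) (x y : α × Δ) : Finset (α × Δ) := insert y (S.erase x)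

theorem image_mv (g : Equiv.Perm (α × Δ)) (S : Finset (α × Δ)) (x y : α × Δ) :
    (mv S x y).image g = mv (S.image g) (g x) (g y) := by
  unfold mv
  rw [Finset.image_insert, Finset.image_erase g.injective]

theorem fib_mv_same {S : Finset (α × Δ)} {x y : α × Δ} (h : y.2 = x.2) :
    fib (mv S x y) x.2 = insert y.1 ((fib S x.2).erase x.1) := by
  ext p
  rw [mem_fib, mv]
  simp only [mem_insert, mem_erase, mem_fib, ne_eq, Prod.ext_iff, not_and]
  constructor
  · rintro (⟨h1, h2⟩ | ⟨h1, h2⟩)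
    · exact Or.inl h1
    · exact Or.inr ⟨fun h3 => h1 h3 trivial, h2⟩
  · rintro (h1 | ⟨h1, h2⟩)
    · exact Or.inl ⟨h1, h.symm⟩
    · exact Or.inr ⟨fun h3 => absurd h3 h1, h2⟩

theorem fib_mv_left {S : Finset (α × Δ)} {x y : α × Δ} (h : x.2 ≠ y.2) :
    fib (mv S x y) x.2 = (fib S x.2).erase x.1 := by
  ext p
  rw [mem_fib, mv]
  simp only [mem_insert, mem_erase, mem_fib, ne_eq, Prod.ext_iff, not_and]
  constructor
  · rintro (⟨h1, h2⟩ | ⟨h1, h2⟩)
    · exact absurd h2 h
    · exact ⟨fun h3 => h1 h3 trivial, h2⟩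
  · rintro ⟨h1, h2⟩
    exact Or.inr ⟨fun h3 => absurd h3 h1, h2⟩

theorem fib_mv_right {S : Finset (α × Δ)} {x y : α × Δ} (h : x.2 ≠ y.2) :
    fib (mv S x y) y.2 = insert y.1 (fib S y.2) := by
  ext p
  rw [mem_fib, mv]
  simp only [mem_insert, mem_erase, mem_fib, ne_eq, Prod.ext_iff, not_and]
  constructor
  · rintro (⟨h1, h2⟩ | ⟨h1, h2⟩)
    · exact Or.inl h1
    · exact Or.inr h2
  · rintro (h1 | h1)
    · exact Or.inl ⟨h1, trivial⟩
    · exact Or.inr ⟨fun _ h3 => h h3.symm, h1⟩

theorem fib_mv_other {S : Finset (α × Δ)} {x y : α × Δ} {j : Δ} (h : j ≠ x.2) (h' : j ≠ y.2) :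
    fib (mv S x y) j = fib S j := by
  ext p
  rw [mem_fib, mv]
  simp only [mem_insert, mem_erase, mem_fib, ne_eq, Prod.ext_iff, not_and]
  constructor
  · rintro (⟨h1, h2⟩ | ⟨h1, h2⟩)
    · exact absurd h2 h'
    · exact h2
  · intro h1
    exact Or.inr ⟨fun _ h3 => h h3, h1⟩

variable {B : Finset (Finset α)} {k r : ℕ}

theorem fib_cases (hB : IsOneDesign B k r) {S : Finset (α × Δ)} (hS : S ∈ blowup B Δ) (j : Δ) :
    (fib S j).card = 1 ∨ ((fib S j).card = k ∧ fib S j ∈ B ∧ ∀ l, l ≠ j → (fib S l).card = 1) := by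
  obtain ⟨i, h1, h2⟩ := mem_blowup.1 hS
  by_cases hj : j = i
  · subst hj
    exact Or.inr ⟨hB.card_block _ h1, h1, h2⟩
  · exact Or.inl (h2 j hj)

/-- moving a singleton inside its class gives a block -/
theorem mv_mem_of_same (hB : IsOneDesign B k r) {S : Finset (α × Δ)} (hS : S ∈ blowup B Δ)
    {x y : α × Δ} (hx : fib S x.2 = {x.1}) (h : y.2 = x.2) : mv S x y ∈ blowup B Δ := by
  obtain ⟨i, h1, h2⟩ := mem_blowup.1 hS
  have hi : i ≠ x.2 := by
    rintro rfl
    have := hB.card_block _ h1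
    rw [hx, card_singleton] at this
    have := hB.two_le_k
    omega
  refine mem_blowup.2 ⟨i, ?_, ?_⟩
  · rw [fib_mv_other hi (h ▸ hi)]; exact h1
  · intro j hj
    by_cases hjx : j = x.2
    · subst hjx
      rw [fib_mv_same h, hx]
      simp
    · rw [fib_mv_other hjx (h ▸ hjx)]; exact h2 j hj

/-- if a point of a block can be replaced by a point of another class, then `k = 2` and the
point lies in the special class of the block -/
theorem of_mv_mem (hB : IsOneDesign B k r) {S : Finset (α × Δ)} (hS : S ∈ blowup B Δ)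
    {x y : α × Δ} (hx : x ∈ S) (hy : y ∉ S) (hxy : x.2 ≠ y.2) (h : mv S x y ∈ blowup B Δ) :
    k = 2 ∧ (fib S x.2).card = 2 := by
  have hx' : x.1 ∈ fib S x.2 := mem_fib.2 hx
  have hy' : y.1 ∉ fib S y.2 := fun h => hy (mem_fib.1 h)
  have e1 : (fib (mv S x y) x.2).card = (fib S x.2).card - 1 := by
    rw [fib_mv_left hxy, card_erase_of_mem hx']
  have e2 : (fib (mv S x y) y.2).card = (fib S y.2).card + 1 := by
    rw [fib_mv_right hxy, card_insert_of_notMem hy']
  have hk := hB.two_le_k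
  rcases fib_cases hB hS x.2 with h1 | ⟨h1, h1', h1''⟩
  · rcases fib_cases hB h x.2 with h2 | ⟨h2, h2', h2''⟩ <;> omega
  · have h3 := h1'' y.2 (Ne.symm hxy)
    rcases fib_cases hB h y.2 with h2 | ⟨h2, h2', h2''⟩ <;> omega

/-- the converse move for `k = 2` -/
theorem mv_mem_of_ne (hB : IsOneDesign B 2 r) {S : Finset (α × Δ)} (hS : S ∈ blowup B Δ)
    {x y : α × Δ} (hx : x ∈ S) (hx2 : (fib S x.2).card = 2) (hxy : x.2 ≠ y.2)
    (hy : insert y.1 (fib S y.2) ∈ B) : mv S x y ∈ blowup B Δ := by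
  have hx' : x.1 ∈ fib S x.2 := mem_fib.2 hx
  have h1 : ∀ l, l ≠ x.2 → (fib S l).card = 1 := by
    rcases fib_cases hB hS x.2 with h1 | ⟨h1, h1', h1''⟩
    · omega
    · exact h1''
  refine mem_blowup.2 ⟨y.2, ?_, ?_⟩
  · rw [fib_mv_right hxy]; exact hy
  · intro j hj
    by_cases hjx : j = x.2
    · subst hjx
      rw [fib_mv_left hxy, card_erase_of_mem hx', hx2]
    · rw [fib_mv_other hjx hj]; exact h1 j hjx

/-- existence of blocks with prescribed points -/
theorem exists_block (hB : IsOneDesign B k r) (s : Δ → α) (i : Δ) :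
    ∃ S ∈ blowup B Δ, (∀ j, (s j, j) ∈ S) ∧ (fib S i ∈ B) ∧ ∀ j, j ≠ i → fib S j = {s j} := by
  have hne : (B.filter (fun b => s i ∈ b)).Nonempty := by
    rw [← card_pos, hB.regular]
    exact hB.one_le_r
  obtain ⟨b, hb⟩ := hne
  rw [mem_filter] at hb
  have hf : ∀ j, fib ((univ : Finset (α × Δ)).filter
      (fun q => (q.2 ≠ i ∧ q.1 = s q.2) ∨ (q.2 = i ∧ q.1 ∈ b))) j =
      if j = i then b else {s j} := by
    intro j
    ext p
    rw [mem_fib, mem_filter]
    by_cases hj : j = i <;> simp [hj]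
  refine ⟨(univ : Finset (α × Δ)).filter
      (fun q => (q.2 ≠ i ∧ q.1 = s q.2) ∨ (q.2 = i ∧ q.1 ∈ b)), ?_, ?_, ?_, ?_⟩
  · refine mem_blowup.2 ⟨i, ?_, ?_⟩
    · rw [hf, if_pos rfl]; exact hb.1
    · intro j hj
      rw [hf, if_neg hj, card_singleton]
  · intro j
    rw [← mem_fib, hf]
    by_cases hj : j = i
    · rw [if_pos hj, hj]; exact hb.2
    · rw [if_neg hj]; exact mem_singleton_self _
  · rw [hf, if_pos rfl]; exact hb.1
  · intro j hj
    rw [hf, if_neg hj]

/-- the partner of a badly mapped point lies in the special class -/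
theorem exists_partner (hB : IsOneDesign B 2 r) (hΔ : 2 ≤ Fintype.card Δ)
    {g : Equiv.Perm (α × Δ)} (hg : g ∈ autGroup (blowup B Δ)) {x y : α × Δ}
    (hxy : x.2 = y.2) (hne : (g x).2 ≠ (g y).2) {S : Finset (α × Δ)} (hS : S ∈ blowup B Δ)
    {i : Δ} (hi : i ≠ x.2) (hxS : x ∈ S) (hf : ∀ j, j ≠ i → ∃ p, fib S j = {p}) :
    ∃ w ∈ S, w.2 = i ∧ (g w).2 = (g x).2 := by
  rw [mem_autGroup] at hg
  have hne' : x ≠ y := fun h => hne (by rw [h])
  have hfx : fib S x.2 = {x.1} := by
    obtain ⟨p, hp⟩ := hf x.2 (Ne.symm hi)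
    have : x.1 ∈ fib S x.2 := mem_fib.2 hxS
    rw [hp, mem_singleton] at this
    rw [hp, this]
  have hyS : y ∉ S := by
    intro h
    have : y.1 ∈ fib S x.2 := by
      rw [hxy]; exact mem_fib.2 h
    rw [hfx, mem_singleton] at this
    exact hne' (Prod.ext this.symm hxy)
  have hT : S.image g ∈ blowup B Δ := (hg S).2 hS
  have hgx : g x ∈ S.image g := mem_image_of_mem _ hxS
  have hgy : g y ∉ S.image g := by
    intro h
    obtain ⟨z, hz, he⟩ := mem_image.1 h
    exact hyS (g.injective he ▸ hz)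
  have h1 : mv S x y ∈ blowup B Δ := mv_mem_of_same hB hS hfx hxy.symm
  have h2 : mv (S.image g) (g x) (g y) ∈ blowup B Δ := by
    rw [← image_mv]; exact (hg _).2 h1
  have h3 := (of_mv_mem hB hT hgx hgy hne h2).2
  have hgx' : (g x).1 ∈ fib (S.image g) (g x).2 := mem_fib.2 hgx
  obtain ⟨z, hz, hzx⟩ : ∃ z ∈ fib (S.image g) (g x).2, z ≠ (g x).1 := by
    have : 1 < (fib (S.image g) (g x).2).card := by omega
    exact Finset.exists_mem_ne this _
  have hz' := mem_fib.1 hz
  obtain ⟨w, hw, hwz⟩ := mem_image.1 hz'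
  have hw2 : (g w).2 = (g x).2 := by rw [hwz]
  have hwx : w ≠ x := by
    rintro rfl
    rw [hwz] at hzx
    exact hzx rfl
  refine ⟨w, hw, ?_, hw2⟩
  by_contra hwi
  have hfw : fib S w.2 = {w.1} := by
    obtain ⟨p, hp⟩ := hf w.2 hwi
    have : w.1 ∈ fib S w.2 := mem_fib.2 hw
    rw [hp, mem_singleton] at this
    rw [hp, this]
  have hwx2 : w.2 ≠ x.2 := by
    intro h
    rw [h, hfx] at hfw
    exact hwx (Prod.ext (singleton_injective hfw).symm h)
  -- choose a further class
  obtain ⟨l, hl⟩ : ∃ l : Δ, l ≠ (g x).2 := by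
    have : 1 < Fintype.card Δ := by omega
    exact Fintype.exists_ne_of_one_lt_card this _
  have hfl : (fib (S.image g) l).card = 1 := by
    rcases fib_cases hB hT (g x).2 with h4 | ⟨h4, h5, h6⟩
    · omega
    · exact h6 l hl
  obtain ⟨t, ht⟩ := card_eq_one.1 hfl
  have hne2 : (B.filter (fun b => t ∈ b)).Nonempty := by
    rw [← card_pos, hB.regular]
    exact hB.one_le_r
  obtain ⟨b, hb⟩ := hne2
  rw [mem_filter] at hb
  obtain ⟨q, hq, hqt⟩ : ∃ q ∈ b, q ≠ t := by
    have : 1 < b.card := by rw [hB.card_block b hb.1]; omega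
    exact Finset.exists_mem_ne this _
  have hb' : insert q {t} = b := by
    apply Finset.eq_of_subset_of_card_le
    · intro z hz
      rw [mem_insert, mem_singleton] at hz
      rcases hz with rfl | rfl
      · exact hq
      · exact hb.2
    · rw [hB.card_block b hb.1, card_pair hqt]
  have hu : insert (q, l).1 (fib (S.image g) (q, l).2) ∈ B := by
    show insert q (fib (S.image g) l) ∈ B
    rw [ht, hb']; exact hb.1
  have huT : (q, l) ∉ S.image g := by
    rw [← mem_fib, ht, mem_singleton]; exact hqt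
  have huS : g.symm (q, l) ∉ S := by
    intro h
    exact huT (mem_image.2 ⟨_, h, by simp⟩)
  -- both points can be replaced by `u`
  have key : ∀ v ∈ S, (g v).2 = (g x).2 → fib S v.2 = {v.1} → (g.symm (q, l)).2 = v.2 := by
    intro v hv hvx hfv
    by_contra hcon
    have h5 : mv (S.image g) (g v) (q, l) ∈ blowup B Δ := by
      apply mv_mem_of_ne hB hT (mem_image_of_mem _ hv)
      · rw [hvx]; exact h3
      · rw [hvx]; exact Ne.symm hl
      · exact hu
    have h6 : mv S v (g.symm (q, l)) ∈ blowup B Δ := by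
      rw [← hg, image_mv, Equiv.apply_symm_apply]
      exact h5
    have h7 := (of_mv_mem hB hS hv huS (Ne.symm hcon) h6).2
    rw [hfv, card_singleton] at h7
    omega
  have e1 := key x hxS rfl hfx
  have e2 := key w hw hw2 hfw
  exact hwx2 (e2.symm.trans e1)

/-- automorphisms preserve the classes -/
theorem same_class (hB : IsOneDesign B k r) (hΔ : 2 ≤ Fintype.card Δ)
    (h3 : 3 ≤ Fintype.card Δ ∨ 3 ≤ k)
    {g : Equiv.Perm (α × Δ)} (hg : g ∈ autGroup (blowup B Δ)) {x y : α × Δ}
    (hxy : x.2 = y.2) : (g x).2 = (g y).2 := by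
  by_contra hne
  have hne' : x ≠ y := fun h => hne (by rw [h])
  have hg' := mem_autGroup.1 hg
  obtain ⟨i, hi⟩ : ∃ i : Δ, i ≠ x.2 := by
    have : 1 < Fintype.card Δ := by omega
    exact Fintype.exists_ne_of_one_lt_card this _
  obtain ⟨S, hS, hs1, hs2, hs3⟩ := exists_block hB (fun _ : Δ => x.1) i
  have hxS : x ∈ S := hs1 x.2
  have hfx : fib S x.2 = {x.1} := hs3 _ (Ne.symm hi)
  have hyS : y ∉ S := by
    intro h
    have : y.1 ∈ fib S x.2 := by
      rw [hxy]; exact mem_fib.2 h
    rw [hfx, mem_singleton] at this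
    exact hne' (Prod.ext this.symm hxy)
  have hT : S.image g ∈ blowup B Δ := (hg' S).2 hS
  have hgx : g x ∈ S.image g := mem_image_of_mem _ hxS
  have hgy : g y ∉ S.image g := by
    intro h
    obtain ⟨z, hz, he⟩ := mem_image.1 h
    exact hyS (g.injective he ▸ hz)
  have h1 : mv S x y ∈ blowup B Δ := mv_mem_of_same hB hS hfx hxy.symm
  have h2 : mv (S.image g) (g x) (g y) ∈ blowup B Δ := by
    rw [← image_mv]; exact (hg' _).2 h1
  have hk : k = 2 := (of_mv_mem hB hT hgx hgy hne h2).1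
  subst hk
  have h3 : 3 ≤ Fintype.card Δ := by omega
  obtain ⟨w, hwS, hwi, hwx⟩ := exists_partner hB hΔ hg hxy hne hS hi hxS
    (fun j hj => ⟨_, hs3 j hj⟩)
  obtain ⟨m, hm⟩ : ∃ m : Δ, m ∉ ({i, x.2} : Finset Δ) := by
    have : ({i, x.2} : Finset Δ).card < Fintype.card Δ := by
      have := Finset.card_le_two (a := i) (b := x.2)
      omega
    exact Finset.exists_mem_notMem_of_card_lt_card (s := {i, x.2}) (t := univ)
      (by rw [card_univ]; exact this) |>.imp (fun _ h => h.2)
  simp only [mem_insert, mem_singleton, not_or] at hm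
  obtain ⟨S', hS', hs1', hs2', hs3'⟩ := exists_block hB
    (fun j : Δ => if j = i then w.1 else x.1) m
  have hxS' : x ∈ S' := by
    have := hs1' x.2
    rw [if_neg (Ne.symm hi)] at this
    exact this
  have hwS' : w ∈ S' := by
    have := hs1' w.2
    rw [if_pos hwi] at this
    exact this
  obtain ⟨w', hwS'', hwi', hwx'⟩ := exists_partner hB hΔ hg hxy hne hS' hm.2 hxS'
    (fun j hj => ⟨_, hs3' j hj⟩)
  have hsub : ({(g x).1, (g w).1, (g w').1} : Finset α) ⊆ fib (S'.image g) (g x).2 := by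
    intro z hz
    simp only [mem_insert, mem_singleton] at hz
    rw [mem_fib]
    rcases hz with rfl | rfl | rfl
    · exact mem_image_of_mem _ hxS'
    · rw [← hwx]; exact mem_image_of_mem _ hwS'
    · rw [← hwx']; exact mem_image_of_mem _ hwS''
  have hcard : (fib (S'.image g) (g x).2).card ≤ 2 := by
    rcases fib_cases hB ((hg' S').2 hS') (g x).2 with h4 | ⟨h4, h5, h6⟩ <;> omega
  have hcard3 : ({(g x).1, (g w).1, (g w').1} : Finset α).card = 3 := by
    rw [card_eq_three]
    refine ⟨_, _, _, ?_, ?_, ?_, rfl⟩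
    · intro h
      have : x = w := g.injective (Prod.ext h hwx.symm)
      rw [← this] at hwi
      exact hi hwi.symm
    · intro h
      have : x = w' := g.injective (Prod.ext h hwx'.symm)
      rw [← this] at hwi'
      exact hm.2 hwi'.symm
    · intro h
      have : w = w' := g.injective (Prod.ext h (hwx.trans hwx'.symm))
      rw [← this, hwi] at hwi'
      exact hm.1 hwi'.symm
  have := card_le_card hsub
  omega

/-- an automorphism that preserves classes maps fibres to fibres -/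
theorem fib_image {g : Equiv.Perm (α × Δ)} {f : Δ → Equiv.Perm α} {σ : Equiv.Perm Δ}
    (h : ∀ (p : α) (j : Δ), g (p, j) = (f j p, σ j)) (S : Finset (α × Δ)) (j : Δ) :
    fib (S.image g) (σ j) = (fib S j).image (f j) := by
  ext p
  rw [mem_fib, mem_image, mem_image]
  constructor
  · rintro ⟨⟨a, b⟩, hab, he⟩
    rw [h, Prod.ext_iff] at he
    have hb : b = j := σ.injective he.2
    subst hb
    exact ⟨a, mem_fib.2 hab, he.1⟩
  · rintro ⟨a, ha, he⟩
    refine ⟨(a, j), mem_fib.1 ha, ?_⟩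
    rw [h, he]

theorem wreath_le : wreath (autGroup B) Δ ≤ autGroup (blowup B Δ) := by
  have main : ∀ g ∈ wreath (autGroup B) Δ, ∀ S ∈ blowup B Δ, S.image g ∈ blowup B Δ := by
    rintro g ⟨f, σ, hf, hg⟩ S hS
    obtain ⟨i, h1, h2⟩ := mem_blowup.1 hS
    refine mem_blowup.2 ⟨σ i, ?_, ?_⟩
    · rw [fib_image hg]
      exact (mem_autGroup.1 (hf i) _).2 h1
    · intro j hj
      obtain ⟨j', rfl⟩ := σ.surjective j
      rw [fib_image hg, card_image_of_injective _ (f j').injective]
      exact h2 j' (fun h => hj (by rw [h]))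
  intro g hg
  rw [mem_autGroup]
  intro S
  constructor
  · intro h
    have := main g⁻¹ ((wreath (autGroup B) Δ).inv_mem hg) _ h
    rw [Finset.image_image] at this
    simpa using this
  · exact main g hg S

theorem le_wreath (hB : IsOneDesign B k r) (hΔ : 2 ≤ Fintype.card Δ)
    (h3 : 3 ≤ Fintype.card Δ ∨ 3 ≤ k) : autGroup (blowup B Δ) ≤ wreath (autGroup B) Δ := by
  intro g hg
  rcases isEmpty_or_nonempty α with hα | ⟨⟨p0⟩⟩
  · exact ⟨fun _ => 1, 1, fun _ => Subgroup.one_mem _, fun p => hα.elim p⟩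
  have hs : ∀ (p q : α) (j : Δ), (g (p, j)).2 = (g (q, j)).2 := fun p q j =>
    same_class hB hΔ h3 hg rfl
  have hs' : ∀ (p q : α) (j : Δ), (g⁻¹ (p, j)).2 = (g⁻¹ (q, j)).2 := fun p q j =>
    same_class hB hΔ h3 ((autGroup (blowup B Δ)).inv_mem hg) rfl
  let σ : Equiv.Perm Δ :=
    { toFun := fun j => (g (p0, j)).2
      invFun := fun j => (g⁻¹ (p0, j)).2
      left_inv := by
        intro j
        show (g⁻¹ (p0, (g (p0, j)).2)).2 = j
        rw [hs' p0 (g (p0, j)).1]
        simp
      right_inv := by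
        intro j
        show (g (p0, (g⁻¹ (p0, j)).2)).2 = j
        rw [hs p0 (g⁻¹ (p0, j)).1]
        simp }
  have hσ : ∀ p j, (g (p, j)).2 = σ j := fun p j => hs p p0 j
  have hinj : ∀ j, Function.Injective (fun p : α => (g (p, j)).1) := by
    intro j p q h
    have : g (p, j) = g (q, j) := Prod.ext h ((hσ p j).trans (hσ q j).symm)
    have := g.injective this
    exact (Prod.ext_iff.1 this).1
  let f : Δ → Equiv.Perm α := fun j =>
    Equiv.ofBijective _ (Finite.injective_iff_bijective.1 (hinj j))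
  have hgf : ∀ (p : α) (j : Δ), g (p, j) = (f j p, σ j) := fun p j => Prod.ext rfl (hσ p j)
  refine ⟨f, σ, ?_, hgf⟩
  intro j
  have hsub : ∀ b ∈ B, b.image (f j) ∈ B := by
    intro b hb
    -- a block of the blow-up with special class `j` and special fibre `b`
    have hbne : b.Nonempty := by
      rw [← card_pos, hB.card_block b hb]
      have := hB.two_le_k
      omega
    have hfS : ∀ l, fib ((univ : Finset (α × Δ)).filter
        (fun q => (q.2 ≠ j ∧ q.1 = p0) ∨ (q.2 = j ∧ q.1 ∈ b))) l =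
        if l = j then b else {p0} := by
      intro l
      ext p
      rw [mem_fib, mem_filter]
      by_cases hl : l = j <;> simp [hl]
    have hS : (univ : Finset (α × Δ)).filter
        (fun q => (q.2 ≠ j ∧ q.1 = p0) ∨ (q.2 = j ∧ q.1 ∈ b)) ∈ blowup B Δ := by
      refine mem_blowup.2 ⟨j, ?_, ?_⟩
      · rw [hfS, if_pos rfl]; exact hb
      · intro l hl
        rw [hfS, if_neg hl, card_singleton]
    have hgS := (mem_autGroup.1 hg _).2 hS
    have hfib := fib_image hgf ((univ : Finset (α × Δ)).filter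
        (fun q => (q.2 ≠ j ∧ q.1 = p0) ∨ (q.2 = j ∧ q.1 ∈ b))) j
    rw [hfS, if_pos rfl] at hfib
    rcases fib_cases hB hgS (σ j) with h4 | ⟨h4, h5, h6⟩
    · rw [hfib, card_image_of_injective _ (f j).injective, hB.card_block b hb] at h4
      have := hB.two_le_k
      omega
    · rw [hfib] at h5; exact h5
  show B.image (fun b => b.image (f j)) = B
  apply Finset.eq_of_subset_of_card_le
  · intro b hb
    obtain ⟨b', hb', rfl⟩ := mem_image.1 hb
    exact hsub b' hb'
  · rw [card_image_of_injective _ (Finset.image_injective (f j).injective)]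

end proofs

/-- For every 1-design with block set `B` on `α` (block size `k ≥ 2`, replication number
`r ≥ 1`) and every index set `Δ` with `e = |Δ| ≥ 2` such that `e ≥ 3` or `k ≥ 3`,
`Aut(D(D~, e)) = Aut(D~) wr S_e` as permutation groups on `α × Δ`. -/
theorem result {α : Type*} [Fintype α] [DecidableEq α] {Δ : Type*} [Fintype Δ] [DecidableEq Δ]
    (B : Finset (Finset α)) (k r : ℕ) (hB : IsOneDesign B k r)
    (he : 2 ≤ Fintype.card Δ) (h : 3 ≤ Fintype.card Δ ∨ 3 ≤ k) :
    autGroup (blowup B Δ) = wreath (autGroup B) Δ :=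
  le_antisymm (le_wreath hB he h) wreath_le

end Pool.Agent.Results.MP_482303_co.AutBlowup
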